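import Mathlib

/-!
# The tolerant learning hierarchy is dense

Learnability up to a tolerance relation is a local notion: `E ≤ F` holds iff every c.e. set `A` has a
finite subset `D` such that every c.e. `B` with `D ⊆ B ⊆ A` which is `E`-equivalent to `A` is
`F`-equivalent to `A`. Given `E < F` there are a c.e. set `A` and c.e. sets `B n ⊆ A` which converge
to `A` from below, are `F`-equivalent to `A` and not `E`-equivalent to `A`. Cut the proper subsets of
`A` into disjoint rings, one for each `n`, put `B n` into the `n`-th ring, refine `E ∩ F` along the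
rings, and merge the class of `A` with the classes of the `B n` for the even `n`.
-/

set_option autoImplicit false

namespace Pool.Agent.Results.MP_555fce_lc.Dense

open Filter

/-- `W e` is the domain of the `e`-th partial computable function. -/
def W (e : ℕ) : Set ℕ := {n | ((Denumerable.ofNat Nat.Partrec.Code e).eval n).Dom}

/-- A tolerance relation: an equivalence relation on `ℕ` which contains the relation
`W a = W b`. -/
structure IsTolerance (E : ℕ → ℕ → Prop) : Prop where
  equiv : Equivalence E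
  ce : ∀ a b, W a = W b → E a b

/-- The learner `M` learns the family `K` up to `E`: for every `e` with `W e ∈ K` and every
enumeration `μ` of `W e`, the values of `M` on the finite initial segments of `μ` are eventually
constant with a value `i` such that `E i e`. -/
def Learns (M : List ℕ → ℕ) (E : ℕ → ℕ → Prop) (K : Set (Set ℕ)) : Prop :=
  ∀ e, W e ∈ K → ∀ μ : ℕ → ℕ, Set.range μ = W e →
    ∃ i, (∀ᶠ s in atTop, M ((List.range s).map μ) = i) ∧ E i e

/-- `K` is a family of nonempty c.e. sets. -/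
def IsCeFamily (K : Set (Set ℕ)) : Prop := ∀ A ∈ K, A.Nonempty ∧ ∃ e, W e = A

/-- `K` is `E`-learnable, by some (arbitrary) learner. -/
def Learnable (E : ℕ → ℕ → Prop) (K : Set (Set ℕ)) : Prop := ∃ M, Learns M E K

/-- Every `E`-learnable family of nonempty c.e. sets is `F`-learnable. -/
def LearnLE (E F : ℕ → ℕ → Prop) : Prop :=
  ∀ K, IsCeFamily K → Learnable E K → Learnable F K

/-- The strict order of the tolerant learning hierarchy. -/
def LearnLT (E F : ℕ → ℕ → Prop) : Prop := LearnLE E F ∧ ¬ LearnLE F E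

/-! ### Learnability is a local notion -/

/-- Tell-tale sets. -/
def Tell (E : ℕ → ℕ → Prop) (K : Set (Set ℕ)) : Prop :=
  ∀ e, W e ∈ K → ∃ D : Finset ℕ, (D : Set ℕ) ⊆ W e ∧
    ∀ b, W b ∈ K → (D : Set ℕ) ⊆ W b → W b ⊆ W e → E b e

theorem exists_locking {M : List ℕ → ℕ} {E : ℕ → ℕ → Prop} {K : Set (Set ℕ)}
    (hM : Learns M E K) {e : ℕ} (he : W e ∈ K) (hne : (W e).Nonempty) :
    ∃ σ : List ℕ, (∀ x ∈ σ, x ∈ W e) ∧ ∀ τ : List ℕ, (∀ x ∈ τ, x ∈ W e) → M (σ ++ τ) = M σ := by
  classical
  by_contra hcon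
  push Not at hcon
  obtain ⟨ν, hν⟩ := (Set.to_countable (W e)).exists_eq_range hne
  choose! t ht htM using hcon
  -- the stages
  let st : ℕ → List ℕ := fun k => Nat.rec [] (fun k σ => σ ++ t σ ++ [ν k]) k
  have st0 : st 0 = [] := rfl
  have stS : ∀ k, st (k + 1) = st k ++ t (st k) ++ [ν k] := fun k => rfl
  have hmem : ∀ k, ∀ x ∈ st k, x ∈ W e := by
    intro k
    induction k with
    | zero => simp [st0]
    | succ k ih =>
      intro x hx
      rw [stS] at hx
      simp only [List.mem_append, List.mem_singleton] at hx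
      rcases hx with (hx | hx) | hx
      · exact ih x hx
      · exact ht _ ih x hx
      · rw [hx, hν]; exact ⟨k, rfl⟩
  have hpre : ∀ k, st k <+: st (k + 1) := fun k => by
    rw [stS, List.append_assoc]; exact List.prefix_append _ _
  have hpre' : ∀ {k l}, k ≤ l → st k <+: st l := by
    intro k l h
    induction h with
    | refl => exact List.prefix_refl _
    | step h ih => exact ih.trans (hpre _)
  have hlen : ∀ k, k ≤ (st k).length := by
    intro k
    induction k with
    | zero => simp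
    | succ k ih => rw [stS]; simp only [List.length_append, List.length_singleton]; omega
  let μ : ℕ → ℕ := fun n => (st (n + 1)).getD n 0
  have hμ : ∀ k n, n < (st k).length → μ n = (st k).getD n 0 := by
    intro k n hn
    have h1 : n < (st (n + 1)).length := hlen (n + 1)
    rcases le_total k (n + 1) with h | h
    · obtain ⟨r, hr⟩ := hpre' h
      simp only [μ]
      rw [← hr, List.getD_append _ _ _ _ hn]
    · obtain ⟨r, hr⟩ := hpre' h
      simp only [μ]
      rw [← hr, List.getD_append _ _ _ _ h1]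
  have hmap : ∀ k s, s ≤ (st k).length → (List.range s).map μ = (st k).take s := by
    intro k s hs
    apply List.ext_getElem
    · simp [hs]
    · intro n h1 h2
      have h3 : n < s := by simpa using h1
      rw [List.getElem_map, List.getElem_range, List.getElem_take, hμ k n (by omega),
        List.getD_eq_getElem _ _ (by omega)]
  have hrange : Set.range μ = W e := by
    apply Set.eq_of_subset_of_subset
    · rintro _ ⟨n, rfl⟩
      have h1 : n < (st (n + 1)).length := hlen (n + 1)
      have : μ n = (st (n + 1))[n] := by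
        simp only [μ]; rw [List.getD_eq_getElem _ _ h1]
      rw [this]
      exact hmem (n + 1) _ (List.getElem_mem h1)
    · intro x hx
      rw [hν] at hx
      obtain ⟨k, rfl⟩ := hx
      have h1 : ν k ∈ st (k + 1) := by rw [stS]; simp
      obtain ⟨n, h2, h3⟩ := List.getElem_of_mem h1
      refine ⟨n, ?_⟩
      rw [hμ (k + 1) n h2, List.getD_eq_getElem _ _ h2, h3]
  obtain ⟨i, hi, -⟩ := hM e he μ hrange
  rw [eventually_atTop] at hi
  obtain ⟨s0, hs0⟩ := hi
  have e1 : M (st s0) = i := by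
    have := hs0 (st s0).length (hlen s0)
    rwa [hmap s0 _ le_rfl, List.take_length] at this
  have e2 : M (st s0 ++ t (st s0)) = i := by
    have h1 : (st s0 ++ t (st s0)).length ≤ (st (s0 + 1)).length := by
      rw [stS]; simp
    have := hs0 (st s0 ++ t (st s0)).length (by
      have := hlen s0
      simp only [List.length_append]; omega)
    rw [hmap (s0 + 1) _ h1, stS, List.take_left] at this
    exact this
  exact htM (st s0) (hmem s0) (e2.trans e1.symm)

theorem tell_of_learnable {E : ℕ → ℕ → Prop} (hE : IsTolerance E) {K : Set (Set ℕ)}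
    (hK : IsCeFamily K) (h : Learnable E K) : Tell E K := by
  classical
  obtain ⟨M, hM⟩ := h
  intro e he
  obtain ⟨σ, hσ, hlock⟩ := exists_locking hM he (hK _ he).1
  -- the value at the locking sequence is right for every set between
  have key : ∀ b, W b ∈ K → (σ.toFinset : Set ℕ) ⊆ W b → W b ⊆ W e → E (M σ) b := by
    intro b hb h1 h2
    obtain ⟨ν, hν⟩ := (Set.to_countable (W b)).exists_eq_range (hK _ hb).1
    let μ : ℕ → ℕ := fun n => if h : n < σ.length then σ[n] else ν (n - σ.length)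
    have hrange : Set.range μ = W b := by
      apply Set.eq_of_subset_of_subset
      · rintro _ ⟨n, rfl⟩
        by_cases h : n < σ.length
        · simp only [μ, h, dif_pos]
          apply h1
          simp
        · simp only [μ, h, dif_neg, not_false_eq_true]
          rw [hν]; exact ⟨_, rfl⟩
      · intro x hx
        rw [hν] at hx
        obtain ⟨k, rfl⟩ := hx
        refine ⟨k + σ.length, ?_⟩
        simp [μ]
    obtain ⟨i, hi, hiE⟩ := hM b hb μ hrange
    rw [eventually_atTop] at hi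
    obtain ⟨s0, hs0⟩ := hi
    have hs := hs0 (σ.length + s0) (by omega)
    have hmap : (List.range (σ.length + s0)).map μ = σ ++ (List.range s0).map ν := by
      apply List.ext_getElem
      · simp
      · intro n h3 h4
        rw [List.getElem_map, List.getElem_range]
        by_cases h : n < σ.length
        · rw [List.getElem_append_left h]
          simp [μ, h]
        · rw [List.getElem_append_right (by omega)]
          simp [μ, h]
    rw [hmap, hlock] at hs
    · rw [hs]; exact hiE
    · intro x hx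
      simp only [List.mem_map, List.mem_range] at hx
      obtain ⟨k, -, rfl⟩ := hx
      apply h2
      rw [hν]; exact ⟨k, rfl⟩
  refine ⟨σ.toFinset, fun x hx => hσ x (by simpa using hx), fun b hb h1 h2 => ?_⟩
  exact hE.equiv.trans (hE.equiv.symm (key b hb h1 h2))
    (key e he (fun x hx => hσ x (by simpa using hx)) subset_rfl)

theorem learnable_of_tell {E : ℕ → ℕ → Prop} (hE : IsTolerance E) {K : Set (Set ℕ)}
    (h : Tell E K) : Learnable E K := by
  classical
  choose! D hD hDE using h
  let P : List ℕ → ℕ → Prop := fun σ k => W k ∈ K ∧ (∀ x ∈ D k, x ∈ σ) ∧ ∀ x ∈ σ, x ∈ W k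
  refine ⟨fun σ => if h : ∃ k, P σ k then Nat.find h else 0, ?_⟩
  intro e he μ hμ
  have hex : ∃ k, W k ∈ K ∧ (D k : Set ℕ) ⊆ W e ∧ W e ⊆ W k := ⟨e, he, hD e he, subset_rfl⟩
  obtain ⟨hk1, hk2, hk3⟩ := Nat.find_spec hex
  set k := Nat.find hex with hk
  refine ⟨k, ?_, hE.equiv.symm (hDE k hk1 e he hk2 hk3)⟩
  -- eventually the condition holds at `k`
  have hc : ∀ s, ∀ x ∈ (List.range s).map μ, x ∈ W e := by
    intro s x hx
    simp only [List.mem_map, List.mem_range] at hx
    obtain ⟨n, -, rfl⟩ := hx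
    rw [← hμ]; exact ⟨n, rfl⟩
  have hev : ∀ x ∈ W e, ∀ᶠ s in atTop, x ∈ (List.range s).map μ := by
    intro x hx
    rw [← hμ] at hx
    obtain ⟨n, rfl⟩ := hx
    filter_upwards [eventually_gt_atTop n] with s hs
    exact List.mem_map.2 ⟨n, List.mem_range.2 hs, rfl⟩
  have h1 : ∀ᶠ s in atTop, P ((List.range s).map μ) k := by
    have : ∀ᶠ s in atTop, ∀ x ∈ D k, x ∈ (List.range s).map μ := by
      rw [eventually_all_finset]
      intro x hx
      exact hev x (hk2 hx)
    filter_upwards [this] with s hs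
    exact ⟨hk1, hs, fun x hx => hk3 (hc s x hx)⟩
  have h2 : ∀ᶠ s in atTop, ∀ j ∈ Finset.range k, ¬ P ((List.range s).map μ) j := by
    rw [eventually_all_finset]
    intro j hj
    have hj' : ¬ (W j ∈ K ∧ (D j : Set ℕ) ⊆ W e ∧ W e ⊆ W j) :=
      Nat.find_min hex (Finset.mem_range.1 hj)
    by_cases hjK : W j ∈ K
    · by_cases hjD : (D j : Set ℕ) ⊆ W e
      · have hjW : ¬ W e ⊆ W j := fun h => hj' ⟨hjK, hjD, h⟩
        obtain ⟨x, hx1, hx2⟩ := Set.not_subset.1 hjW
        filter_upwards [hev x hx1] with s hs hP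
        exact hx2 (hP.2.2 x hs)
      · obtain ⟨x, hx1, hx2⟩ := Set.not_subset.1 hjD
        exact Eventually.of_forall fun s hP => hx2 (hc s x (hP.2.1 x hx1))
    · exact Eventually.of_forall fun s hP => hjK hP.1
  filter_upwards [h1, h2] with s hs1 hs2
  have hex' : ∃ j, P ((List.range s).map μ) j := ⟨k, hs1⟩
  rw [dif_pos hex']
  apply le_antisymm (Nat.find_min' hex' hs1)
  by_contra hlt
  exact hs2 _ (Finset.mem_range.2 (not_le.1 hlt)) (Nat.find_spec hex')

/-- Local inclusion. -/
def Loc (E F : ℕ → ℕ → Prop) : Prop :=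
  ∀ a, ∃ D : Finset ℕ, (D : Set ℕ) ⊆ W a ∧
    ∀ b, (D : Set ℕ) ⊆ W b → W b ⊆ W a → E b a → F b a

theorem learnLE_of_loc {E F : ℕ → ℕ → Prop} (hE : IsTolerance E) (hF : IsTolerance F)
    (h : Loc E F) : LearnLE E F := by
  classical
  intro K hK hL
  apply learnable_of_tell hF
  intro e he
  obtain ⟨D1, h1, h2⟩ := tell_of_learnable hE hK hL e he
  obtain ⟨D2, h3, h4⟩ := h e
  refine ⟨D1 ∪ D2, by simp [h1, h3], fun b hb h5 h6 => ?_⟩
  simp only [Finset.coe_union, Set.union_subset_iff] at h5
  exact h4 b h5.2 h6 (h2 b hb h5.1 h6)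

theorem loc_of_learnLE {E F : ℕ → ℕ → Prop} (hE : IsTolerance E) (hF : IsTolerance F)
    (h : LearnLE E F) : Loc E F := by
  classical
  by_contra hcon
  unfold Loc at hcon
  push Not at hcon
  obtain ⟨a, ha⟩ := hcon
  -- the set `W a` is nonempty
  have hne : (W a).Nonempty := by
    by_contra hemp
    rw [Set.not_nonempty_iff_eq_empty] at hemp
    obtain ⟨b, -, h2, -, h4⟩ := ha ∅ (by simp)
    apply h4
    apply hF.ce
    rw [hemp] at h2 ⊢
    exact Set.subset_empty_iff.1 h2
  obtain ⟨x0, hx0⟩ := hne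
  let Dn : ℕ → Finset ℕ := fun n => insert x0 ((Finset.range n).filter (· ∈ W a))
  have hDn : ∀ n, (Dn n : Set ℕ) ⊆ W a := by
    intro n x hx
    simp only [Dn, Finset.coe_insert, Finset.coe_filter, Finset.mem_range, Set.mem_insert_iff,
      Set.mem_ofPred_eq] at hx
    rcases hx with rfl | ⟨-, h⟩
    · exact hx0
    · exact h
  have hDx : ∀ n x, x ∈ W a → x < n → x ∈ Dn n := by
    intro n x hx hn
    simp [Dn, hx, hn]
  choose b hb1 hb2 hb3 hb4 using fun n => ha (Dn n) (hDn n)
  let K : Set (Set ℕ) := {A | A = W a ∨ ∃ n, A = W (b n)}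
  have hKce : IsCeFamily K := by
    rintro A (rfl | ⟨n, rfl⟩)
    · exact ⟨⟨x0, hx0⟩, a, rfl⟩
    · exact ⟨⟨x0, hb1 n (by simp [Dn])⟩, b n, rfl⟩
  have hKE : Learnable E K := by
    apply learnable_of_tell hE
    intro e he
    by_cases hea : W e = W a
    · refine ⟨∅, by simp, ?_⟩
      rintro c (hc | ⟨n, hc⟩) - -
      · exact hE.ce _ _ (hc.trans hea.symm)
      · exact hE.equiv.trans (hE.ce _ _ hc) (hE.equiv.trans (hb3 n) (hE.ce _ _ hea.symm))
    · have he' : ∃ n, W e = W (b n) := he.resolve_left hea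
      obtain ⟨n, hn⟩ := he'
      have hsub : W e ⊆ W a := hn ▸ hb2 n
      obtain ⟨x, hx1, hx2⟩ : ∃ x, x ∈ W a ∧ x ∉ W e := by
        by_contra hall
        push Not at hall
        exact hea (Set.Subset.antisymm hsub hall)
      -- elements which separate `W e` from its proper subsets among the first sets
      have hsep : ∀ m, ∃ y, y ∈ W e ∧ (W (b m) ⊂ W e → y ∉ W (b m)) := by
        intro m
        by_cases hm : W (b m) ⊂ W e
        · obtain ⟨y, hy1, hy2⟩ := Set.exists_of_ssubset hm
          exact ⟨y, hy1, fun _ => hy2⟩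
        · exact ⟨x0, by rw [hn]; exact hb1 n (by simp [Dn]), fun h => absurd h hm⟩
      choose y hy1 hy2 using hsep
      refine ⟨(Finset.range (x + 1)).image y, ?_, ?_⟩
      · intro z hz
        simp only [Finset.coe_image, Set.mem_image] at hz
        obtain ⟨m, -, rfl⟩ := hz
        exact hy1 m
      · rintro c (hc | ⟨m, hc⟩) h5 h6
        · exact absurd (h6 (hc ▸ hx1)) hx2
        · have hm : m < x + 1 := by
            by_contra hm
            apply hx2
            apply h6
            rw [hc]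
            exact hb1 m (hDx m x hx1 (by omega))
          by_cases heq : W c = W e
          · exact hE.ce _ _ heq
          · have hss : W (b m) ⊂ W e := by
              rw [← hc]; exact lt_of_le_of_ne h6 heq
            exfalso
            apply hy2 m hss
            rw [← hc]
            apply h5
            simp only [Finset.coe_image, Set.mem_image]
            exact ⟨m, by simpa using hm, rfl⟩
  have hKF := tell_of_learnable hF hKce (h K hKce hKE)
  obtain ⟨D, hD1, hD2⟩ := hKF a (Or.inl rfl)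
  have hDle : ∀ x ∈ D, x < D.sup id + 1 := fun x hx =>
    Nat.lt_succ_of_le (Finset.le_sup (f := id) hx)
  apply hb4 (D.sup id + 1)
  apply hD2
  · exact Or.inr ⟨_, rfl⟩
  · intro x hx
    exact hb1 _ (hDx _ x (hD1 hx) (hDle x hx))
  · exact hb2 _

theorem loc_trans {E F G : ℕ → ℕ → Prop} (h1 : Loc E F) (h2 : Loc F G) : Loc E G := by
  classical
  intro a
  obtain ⟨D1, h3, h4⟩ := h1 a
  obtain ⟨D2, h5, h6⟩ := h2 a
  refine ⟨D1 ∪ D2, by simp [h3, h5], fun b h7 h8 h9 => ?_⟩
  simp only [Finset.coe_union, Set.union_subset_iff] at h7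
  exact h6 b h7.2 h8 (h4 b h7.1 h8 h9)

/-- **The tolerant learning hierarchy is dense.** For all tolerance relations `E < F` there is a
tolerance relation `G` with `E < G < F`. -/
theorem result : ∀ E F : ℕ → ℕ → Prop, IsTolerance E → IsTolerance F → LearnLT E F →
    ∃ G : ℕ → ℕ → Prop, IsTolerance G ∧ LearnLT E G ∧ LearnLT G F := by
  classical
  rintro E F hE hF ⟨hEF, hFE⟩
  have hloc := loc_of_learnLE hE hF hEF
  have hnloc : ¬ Loc F E := fun h => hFE (learnLE_of_loc hF hE h)
  unfold Loc at hnloc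
  push Not at hnloc
  obtain ⟨a, ha⟩ := hnloc
  -- the intersection of the two relations
  let E0 : ℕ → ℕ → Prop := fun x y => E x y ∧ F x y
  have hE0 : IsTolerance E0 :=
    ⟨⟨fun x => ⟨hE.equiv.refl x, hF.equiv.refl x⟩,
      fun h => ⟨hE.equiv.symm h.1, hF.equiv.symm h.2⟩,
      fun h h' => ⟨hE.equiv.trans h.1 h'.1, hF.equiv.trans h.2 h'.2⟩⟩,
      fun x y h => ⟨hE.ce x y h, hF.ce x y h⟩⟩
  have hEE0 : Loc E E0 := by
    intro x
    obtain ⟨D, h1, h2⟩ := hloc x
    exact ⟨D, h1, fun b h3 h4 h5 => ⟨h5, h2 b h3 h4 h5⟩⟩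
  -- the sets `B n` and the finite sets `D n`
  choose! β hβ1 hβ2 hβ3 hβ4 using ha
  have hx : ∀ D : Finset ℕ, (D : Set ℕ) ⊆ W a → ∃ x, x ∈ W a ∧ x ∉ W (β D) := by
    intro D hD
    by_contra hall
    push Not at hall
    exact hβ4 D hD (hE.ce _ _ (Set.Subset.antisymm (hβ2 D hD) hall))
  choose! ξ hξ1 hξ2 using hx
  obtain ⟨Dn, hD0, hDS⟩ : ∃ Dn : ℕ → Finset ℕ, Dn 0 = ∅ ∧ ∀ n, Dn (n + 1) =
      insert (ξ (Dn n)) (Dn n ∪ (Finset.range (n + 1)).filter (· ∈ W a)) :=
    ⟨fun n => Nat.rec ∅
      (fun n D => insert (ξ D) (D ∪ (Finset.range (n + 1)).filter (· ∈ W a))) n,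
      rfl, fun n => rfl⟩
  have hDa : ∀ n, (Dn n : Set ℕ) ⊆ W a := by
    intro n
    induction n with
    | zero => simp [hD0]
    | succ n ih =>
      rw [hDS]
      intro x hx
      simp only [Finset.coe_insert, Finset.coe_union, Finset.coe_filter, Set.mem_insert_iff,
        Set.mem_union, Set.mem_ofPred_eq] at hx
      rcases hx with rfl | hx | hx
      · exact hξ1 _ ih
      · exact ih hx
      · exact hx.2
  have hDmono : Monotone Dn := by
    apply monotone_nat_of_le_succ
    intro n
    rw [hDS]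
    exact (Finset.subset_union_left).trans (Finset.subset_insert _ _)
  have hDex : ∀ D : Finset ℕ, (D : Set ℕ) ⊆ W a → ∃ N, D ⊆ Dn N := by
    intro D hD
    refine ⟨D.sup id + 1, fun x hx => ?_⟩
    rw [hDS]
    apply Finset.mem_insert_of_mem
    apply Finset.mem_union_right
    exact Finset.mem_filter.2 ⟨Finset.mem_range.2 (Nat.lt_succ_of_le (Finset.le_sup (f := id) hx)),
      hD hx⟩
  let B : ℕ → ℕ := fun n => β (Dn n)
  have hB1 : ∀ n, (Dn n : Set ℕ) ⊆ W (B n) := fun n => hβ1 _ (hDa n)
  have hB2 : ∀ n, W (B n) ⊆ W a := fun n => hβ2 _ (hDa n)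
  have hB3 : ∀ n, F (B n) a := fun n => hβ3 _ (hDa n)
  have hB4 : ∀ n, ¬ E (B n) a := fun n => hβ4 _ (hDa n)
  have hB5 : ∀ n, ¬ (Dn (n + 1) : Set ℕ) ⊆ W (B n) := by
    intro n h
    apply hξ2 _ (hDa n)
    apply h
    rw [hDS]
    simp
  -- the ring of a set
  let R : ℕ → ℕ → Prop := fun n b => (Dn n : Set ℕ) ⊆ W b ∧ W b ⊆ W a
  have hRa : ∀ b, (∀ n, R n b) → W b = W a := by
    intro b hb
    apply Set.Subset.antisymm (hb 0).2
    intro x hx
    obtain ⟨N, hN⟩ := hDex {x} (by simpa using hx)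
    exact (hb N).1 (hN (by simp))
  -- two sets are in the same ring
  let S : ℕ → ℕ → Prop := fun x y => ∀ n, R n x ↔ R n y
  have hSB : ∀ n m, S (B n) (B m) → n = m := by
    intro n m h
    rcases lt_trichotomy n m with hlt | heq | hlt
    · exfalso
      apply hB5 n
      have h1 : R (n + 1) (B m) :=
        ⟨(Finset.coe_subset.2 (hDmono hlt)).trans (hB1 m), hB2 m⟩
      exact ((h (n + 1)).2 h1).1
    · exact heq
    · exfalso
      apply hB5 m
      have h1 : R (m + 1) (B n) :=
        ⟨(Finset.coe_subset.2 (hDmono hlt)).trans (hB1 n), hB2 n⟩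
      exact ((h (m + 1)).1 h1).1
  have hSce : ∀ x y, W x = W y → S x y := by
    intro x y h n
    simp only [R, h]
  -- rings are open from below
  have hSloc : ∀ x, W x ≠ W a → ∃ D : Finset ℕ, (D : Set ℕ) ⊆ W x ∧
      ∀ b, (D : Set ℕ) ⊆ W b → W b ⊆ W x → S b x := by
    intro x hxa
    by_cases hsub : W x ⊆ W a
    · -- the least `n` with `Dn n` not contained in `W x`
      have hex : ∃ n, ¬ (Dn n : Set ℕ) ⊆ W x := by
        by_contra hall
        push Not at hall
        exact hxa (hRa x fun n => ⟨hall n, hsub⟩)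
      let N := Nat.find hex
      have hN : ¬ (Dn N : Set ℕ) ⊆ W x := Nat.find_spec hex
      have hN0 : N ≠ 0 := by
        intro h0
        apply hN
        rw [h0, hD0]
        simp
      have hN1 : (Dn (N - 1) : Set ℕ) ⊆ W x := by
        by_contra hh
        have : N ≤ N - 1 := Nat.find_min' hex hh
        omega
      refine ⟨Dn (N - 1), hN1, fun b h1 h2 n => ?_⟩
      constructor
      · rintro ⟨h3, -⟩
        exact ⟨h3.trans h2, hsub⟩
      · rintro ⟨h3, -⟩
        refine ⟨?_, h2.trans hsub⟩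
        have hn : n ≤ N - 1 := by
          by_contra hlt
          apply hN
          exact (Finset.coe_subset.2 (hDmono (by omega : N ≤ n))).trans h3
        exact (Finset.coe_subset.2 (hDmono hn)).trans h1
    · obtain ⟨z, hz1, hz2⟩ := Set.not_subset.1 hsub
      refine ⟨{z}, by simpa using hz1, fun b h1 _ n => ?_⟩
      constructor
      · rintro ⟨-, h3⟩
        exact absurd (h3 (h1 (by simp))) hz2
      · rintro ⟨-, h3⟩
        exact absurd h3 hsub
  -- the class of `a` in the new relation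
  let C : ℕ → Prop := fun b => E0 b a ∨ ∃ n, Even n ∧ E0 b (B n) ∧ S b (B n)
  let G : ℕ → ℕ → Prop := fun x y => (C x ∧ C y) ∨ (¬ C x ∧ ¬ C y ∧ E0 x y ∧ S x y)
  have hCa : C a := Or.inl (hE0.equiv.refl a)
  have hCcong : ∀ x y, E0 x y → S x y → C x → C y := by
    rintro x y h1 h2 (h3 | ⟨n, h3, h4, h5⟩)
    · exact Or.inl (hE0.equiv.trans (hE0.equiv.symm h1) h3)
    · exact Or.inr ⟨n, h3, hE0.equiv.trans (hE0.equiv.symm h1) h4,
        fun m => (h2 m).symm.trans (h5 m)⟩
  have hG : IsTolerance G := by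
    refine ⟨⟨fun x => ?_, ?_, ?_⟩, ?_⟩
    · by_cases h : C x
      · exact Or.inl ⟨h, h⟩
      · exact Or.inr ⟨h, h, hE0.equiv.refl x, fun _ => Iff.rfl⟩
    · rintro x y (⟨h1, h2⟩ | ⟨h1, h2, h3, h4⟩)
      · exact Or.inl ⟨h2, h1⟩
      · exact Or.inr ⟨h2, h1, hE0.equiv.symm h3, fun n => (h4 n).symm⟩
    · rintro x y z (⟨h1, h2⟩ | ⟨h1, h2, h3, h4⟩) (⟨h5, h6⟩ | ⟨h5, h6, h7, h8⟩)
      · exact Or.inl ⟨h1, h6⟩
      · exact absurd h2 h5
      · exact absurd h5 h2
      · exact Or.inr ⟨h1, h6, hE0.equiv.trans h3 h7, fun n => (h4 n).trans (h8 n)⟩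
    · intro x y h
      have h1 := hE0.ce x y h
      have h2 := hSce x y h
      by_cases hc : C x
      · exact Or.inl ⟨hc, hCcong x y h1 h2 hc⟩
      · refine Or.inr ⟨hc, fun hc' => hc ?_, h1, h2⟩
        exact hCcong y x (hE0.equiv.symm h1) (fun n => (h2 n).symm) hc'
  have hGF : ∀ x y, G x y → F x y := by
    have hCF : ∀ x, C x → F x a := by
      rintro x (h | ⟨n, -, h, -⟩)
      · exact h.2
      · exact hF.equiv.trans h.2 (hB3 n)
    rintro x y (⟨h1, h2⟩ | ⟨-, -, h, -⟩)
    · exact hF.equiv.trans (hCF x h1) (hF.equiv.symm (hCF y h2))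
    · exact h.2
  have hE0G : Loc E0 G := by
    intro x
    by_cases hxa : E0 x a
    · exact ⟨∅, by simp, fun b _ _ h => Or.inl ⟨Or.inl (hE0.equiv.trans h hxa), Or.inl hxa⟩⟩
    · have hne : W x ≠ W a := fun h => hxa (hE0.ce _ _ h)
      obtain ⟨D, h1, h2⟩ := hSloc x hne
      refine ⟨D, h1, fun b h3 h4 h5 => ?_⟩
      have h6 := h2 b h3 h4
      by_cases hc : C b
      · exact Or.inl ⟨hc, hCcong b x h5 h6 hc⟩
      · refine Or.inr ⟨hc, fun hc' => hc ?_, h5, h6⟩
        exact hCcong x b (hE0.equiv.symm h5) (fun n => (h6 n).symm) hc'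
  refine ⟨G, hG, ⟨?_, ?_⟩, ⟨?_, ?_⟩⟩
  · exact learnLE_of_loc hE hG (loc_trans hEE0 hE0G)
  · intro h
    obtain ⟨D, h1, h2⟩ := loc_of_learnLE hG hE h a
    obtain ⟨N, hN⟩ := hDex D h1
    refine hB4 (2 * N) (h2 (B (2 * N)) ?_ (hB2 _) ?_)
    · exact (Finset.coe_subset.2 (hN.trans (hDmono (by omega)))).trans (hB1 _)
    · exact Or.inl ⟨Or.inr ⟨2 * N, even_two_mul N, hE0.equiv.refl _, fun _ => Iff.rfl⟩, hCa⟩
  · exact learnLE_of_loc hG hF fun x => ⟨∅, by simp, fun b _ _ h => hGF b x h⟩
  · intro h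
    obtain ⟨D, h1, h2⟩ := loc_of_learnLE hF hG h a
    obtain ⟨N, hN⟩ := hDex D h1
    have h3 := h2 (B (2 * N + 1))
      ((Finset.coe_subset.2 (hN.trans (hDmono (by omega)))).trans (hB1 _)) (hB2 _) (hB3 _)
    have h4 : C (B (2 * N + 1)) := by
      rcases h3 with ⟨h4, -⟩ | ⟨-, h4, -⟩
      · exact h4
      · exact absurd hCa h4
    rcases h4 with h4 | ⟨n, h5, -, h6⟩
    · exact hB4 _ h4.1
    · have := hSB _ _ h6
      rw [← this] at h5
      exact absurd h5 (by simp [parity_simps])

end Pool.Agent.Results.MP_555fce_lc.Dense
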